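import Pool.Agent.MP_74c440_lc.Conv

set_option autoImplicit false

namespace Pool.Agent.Results.MP_74c440_lc.NPvsBPP

open Pool.Agent.MP_74c440_lc

/-- Approximate orbit counting always gives a sampler if and only if NP is contained in BPP. -/
theorem result (k c : ℕ) (hk : 2 ≤ k) (hc : 1 ≤ c) :
    (∀ S : Set (Σ m : ℕ, Subgroup (Equiv.Perm (Fin m))), HasFPRAS k c S → HasSampler k c S) ↔
      N68a2faeb.NP ⊆ N68a2faeb.BPP :=
  ⟨fun h => np_bpp hk hc (h _ (fam_fpras hk c)), fun h S _ => sampler_all (by omega) c h S⟩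

end Pool.Agent.Results.MP_74c440_lc.NPvsBPP
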